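import Pool.Agent.Work.MP_a11cf9_nt.Values
import Pool.Agent.Work.MP_a11cf9_nt.Power

/-!
# Terras' coefficient stopping time conjecture holds for almost all values of `κ`

`T`, `odds`, `kappa`, `sigma` are defined in `Pool/Agent/Work/MP_a11cf9_nt/Defs.lean`: the `3x+1`
map, the number `a_k(n)` of odd iterates among the first `k`, the coefficient stopping time and the
stopping time (both with values in `ℕ∞`).

At least half of the integers `k` up to `X` are values of `κ`, and for all but at most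
`C X ^ 0.9995` of them every `n ≥ 2` with `κ(n) = k` satisfies `σ(n) = k`.
-/

set_option autoImplicit false

open Pool.Agent.Work.MP_a11cf9_nt

theorem Pool.Agent.Results.MP_a11cf9_nt.AlmostAllKappa.result :
    (∀ X : ℕ, X / 2 ≤ {k : ℕ | k ≤ X ∧ ∃ n : ℕ, 2 ≤ n ∧ kappa n = k}.ncard) ∧
    ∃ C : ℝ, ∀ X : ℕ, 1 ≤ X →
      ({k : ℕ | k ≤ X ∧ ∃ n : ℕ, 2 ≤ n ∧ kappa n = k ∧ sigma n ≠ k}.ncard : ℝ) ≤
        C * (X : ℝ) ^ (0.9995 : ℝ) := by
  refine ⟨values_count, ?_⟩
  obtain ⟨C, hC⟩ := bad_count_power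
  exact ⟨C, hC⟩
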