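import Pool.Agent.Work.MP_a11cf9_nt.Win.Main

/-!
# Terras' coefficient stopping time conjecture: every counterexample has `2 ^ κ` very close to
a power of three

`T`, `odds`, `kappa`, `sigma` are defined in `Pool/Agent/Work/MP_a11cf9_nt/Defs.lean`: the `3x+1`
map, the number `a_k(n)` of odd iterates among the first `k`, the coefficient stopping time and the
stopping time (both with values in `ℕ∞`).

The exponent `c` is strictly larger than `1 - H(log 2 / log 3) = 0.0500...` (`H` the binary entropy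
in bits), the exponent given by the independence of the first `log₂ m` parities of `m`. The bound
does not depend on `κ(n)`. The first statement on `j` says that the coefficient
`3 ^ a_j(n) / 2 ^ j` is at least `exp (-C n ^ (-c))` for every `j` before the stopping time.
The last part is the consequence that for every `ε > 0` there are only finitely many `n` with
`κ(n) ≠ σ(n)` and `2 ^ κ(n) ≥ (1 + ε) 3 ^ a`.
-/

set_option autoImplicit false

open Pool.Agent.Work.MP_a11cf9_nt

theorem Pool.Agent.Results.MP_a11cf9_nt.CounterexampleBound.result :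
    0.049 < 1 - Real.binEntropy (Real.log 2 / Real.log 3) / Real.log 2 ∧
    (∃ c : ℝ, 1 - Real.binEntropy (Real.log 2 / Real.log 3) / Real.log 2 < c ∧
      ∃ C : ℝ, ∀ n : ℕ, 2 ≤ n →
        (∀ j : ℕ, 1 ≤ j → (j : ℕ∞) < sigma n → (sigma n ≠ ⊤ ∨ (j : ℕ∞) ≤ kappa n) →
          j * Real.log 2 - odds n j * Real.log 3 ≤ C * (n : ℝ) ^ (-c)) ∧
        (kappa n ≠ sigma n → ∃ k : ℕ, kappa n = k ∧ 3 ^ odds n k < 2 ^ k ∧
          k * Real.log 2 - odds n k * Real.log 3 ≤ C * (n : ℝ) ^ (-c))) ∧
    ∀ ε : ℝ, 0 < ε →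
      {n : ℕ | 2 ≤ n ∧ kappa n ≠ sigma n ∧
        ∃ k : ℕ, kappa n = k ∧ (1 + ε) * 3 ^ odds n k ≤ (2 : ℝ) ^ k}.Finite := by
  refine ⟨theorem_one.1, Win.t_FinB, fun ε hε => (finite_of_gap hε).subset ?_⟩
  rintro n ⟨hn, hne, k, hk, h⟩
  exact ⟨hn, k, hk, fun hs => hne (by rw [hk, hs]), h⟩
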