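import Pool.Agent.Work.MP_a11cf9_nt.Win.Main

/-!
# Terras' coefficient stopping time conjecture: the exceptional set is smaller than the count of
parity vectors

`T`, `odds`, `kappa`, `sigma` are defined in `Pool/Agent/Work/MP_a11cf9_nt/Defs.lean`: the `3x+1`
map, the number `a_k(n)` of odd iterates among the first `k`, the coefficient stopping time and the
stopping time (both with values in `ℕ∞`).

The number of parity vectors of length `J` (that is, of residues modulo `2 ^ J`) with at least
`J * log 2 / log 3` ones is `2 ^ (H₀ J + o(J))` with `H₀ = H(log 2 / log 3) = 0.9499...`, so the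
independence of the first `log₂ n` parities of `n` gives the exponent `H₀ + o(1)` for the set of
`n` with `κ(n) > log₂ n`. The theorem: for every `λ > 1` the set of the `n ≤ N` which do not satisfy
`κ(n) = σ(n) ≤ λ log₂ n` has at most `C N ^ θ` elements with some `θ < H₀`. The proof shows that the
parities after the time `log₂ n` are still nearly independent of the first ones, with an
exponentially small error, for the measure which charges the `n` with `κ(n) > log₂ n`
(`Win.S_E` in `Pool/Agent/Work/MP_a11cf9_nt/Win/Stmts.lean`).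
-/

set_option autoImplicit false

open Pool.Agent.Work.MP_a11cf9_nt

theorem Pool.Agent.Results.MP_a11cf9_nt.ExceptionalSet.result :
    Real.binEntropy (Real.log 2 / Real.log 3) / Real.log 2 < 0.951 ∧
    ∀ lam : ℝ, 1 < lam → ∃ θ C : ℝ,
      θ < Real.binEntropy (Real.log 2 / Real.log 3) / Real.log 2 ∧
      ∀ N : ℕ, ({n : ℕ | 2 ≤ n ∧ n ≤ N ∧ ¬ (kappa n = sigma n ∧
        ∃ k : ℕ, sigma n = k ∧ (k : ℝ) ≤ lam * Real.logb 2 n)}.ncard : ℝ) ≤ C * (N : ℝ) ^ θ := by
  classical
  refine ⟨by linarith [theorem_one.1], fun lam hlam => ?_⟩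
  obtain ⟨θ, C, hθ, h⟩ := Win.t_FinA lam hlam
  refine ⟨θ, C, hθ, fun N => ?_⟩
  refine le_trans (le_of_eq ?_) (h N)
  rw [← Set.ncard_coe_finset]
  congr 2
  ext n
  simp only [Set.mem_ofPred_eq, Finset.coe_filter, Finset.mem_Icc, and_assoc]

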