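import Pool.Agent.Work.MP_a11cf9_nt.FewCircuits

/-!
# Terras' coefficient stopping time conjecture: counterexamples have many circuits

`T`, `odds`, `kappa`, `sigma` are defined in `Pool/Agent/Work/MP_a11cf9_nt/Defs.lean`: the `3x+1`
map, the number `a_k(n)` of odd iterates among the first `k`, the coefficient stopping time and the
stopping time (both with values in `ℕ∞`). `circ n k`, defined in
`Pool/Agent/Work/MP_a11cf9_nt/Circ.lean`, is the number of circuits (maximal runs of odd iterates)
which end before time `k`.

This is the extension to Terras' conjecture of the theorem of Steiner, Simons and de Weger on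
cycles of the `3x+1` map with few circuits.
-/

set_option autoImplicit false

open Pool.Agent.Work.MP_a11cf9_nt

theorem Pool.Agent.Results.MP_a11cf9_nt.ManyCircuits.result :
    (∃ C : ℝ, ∀ n k : ℕ, 2 ≤ n → kappa n = k → sigma n ≠ k →
      (k : ℝ) ≤ C * (Real.log 3 / Real.log 2) ^ circ n k * Real.log k) ∧
    ∀ m : ℕ, {n : ℕ | 2 ≤ n ∧ ∃ k : ℕ, kappa n = k ∧ sigma n ≠ k ∧ circ n k ≤ m}.Finite := by
  refine ⟨?_, finite_circuits⟩
  obtain ⟨C, -, hC⟩ := many_circuits
  exact ⟨C, hC⟩
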